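import Pool.Agent.U775.OR.PMain

/-!
# MP_909098_lc: closed orders definable in F_p((t))

Write `K` for the field `F_p((t))`, alone or with a unary predicate `P` (the valuation ring, say). The
starting results of MP_db9079_lc say: either true arithmetic is reducible to the theory of `(K, P)`, or the sets of
the locally finite values of definable relations are uniformly finite; the second alternative holds
if the theory is recursively enumerable.

Suppose the second alternative holds. Let `R` be a definable preorder on a subset `X` of `K^n` which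
is closed in `K^n × K^n`. In a compact ball every chain of points of `X` has a lower bound in `X`
(a limit along an ultrafilter), so each ball which meets `X` contains minimal points of `X` in the
ball; no two of them are strictly comparable. If `R` is thin, that is if each set without strictly
comparable points is finite, then the relation `y is minimal among the points of X in c O which are
in x + b O` has only locally finite values, so it has at most `N` values, and `N` does not depend on
`c` and `b`. Hence `X` has at most `N` elements.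

So, unless true arithmetic is reducible to the theory: every definable closed partial order on an
infinite subset of `K^n` has an infinite antichain, in particular it is not linear; and for each
continuous function `f` with finite fibres from an infinite closed set to the real numbers the
relation `f x ≤ f y` is not definable. For the expansions of the field by such relations the
conclusion is unconditional: they interpret true arithmetic. An example is the lexicographic order.
-/

set_option autoImplicit false

namespace Pool.Agent.Results.MP_909098_lc.ClosedOrders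

open Pool.Agent.Y924.EL
open Pool.Agent.Results.MP_db9079_lc.UniformFiniteness
open Pool.Agent.Results.MP_db9079_lc.LocallyFiniteValues

variable (p : ℕ) [Fact p.Prime]

/-- the coordinates of `x` and `x'` have the same coefficients at the exponents below `M` -/
def Agree {n : ℕ} (M : ℤ) (x x' : Fin n → LaurentSeries (ZMod p)) : Prop :=
  ∀ i, ∀ k < M, (x i).coeff k = (x' i).coeff k

/-- `R` is a preorder on the set `{x | R x x}`, and `R` is a closed subset of `K^n × K^n` -/
def ClosedPreorder {n : ℕ}
    (R : (Fin n → LaurentSeries (ZMod p)) → (Fin n → LaurentSeries (ZMod p)) → Prop) : Prop :=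
  (∀ x y, R x y → R x x ∧ R y y) ∧ (∀ x y z, R x y → R y z → R x z) ∧
    ∀ x y, ¬ R x y → ∃ M : ℤ, ∀ x' y', Agree p M x x' → Agree p M y y' → ¬ R x' y'

/-- each set without strictly comparable points is finite -/
def Thin {n : ℕ}
    (R : (Fin n → LaurentSeries (ZMod p)) → (Fin n → LaurentSeries (ZMod p)) → Prop) : Prop :=
  ∀ A : Set (Fin n → LaurentSeries (ZMod p)), (∀ x ∈ A, R x x) →
    (∀ x ∈ A, ∀ y ∈ A, R x y → R y x) → A.Finite

/-- for each formula there is a bound for the numbers of elements of all thin closed preorders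
which the formula defines with parameters -/
def OrdersBounded (P : Set (LaurentSeries (ZMod p))) : Prop :=
  ∀ (φ : Fm) (n : ℕ), ∃ N : ℕ, ∀ v : ℕ → LaurentSeries (ZMod p),
    ClosedPreorder p (DRel p P φ n n v) → Thin p (DRel p P φ n n v) →
      {x | DRel p P φ n n v x x}.Finite ∧ {x | DRel p P φ n n v x x}.ncard ≤ N

/-- `f` is continuous on the closed set `X` -/
def ContOn {n : ℕ} (X : Set (Fin n → LaurentSeries (ZMod p)))
    (f : (Fin n → LaurentSeries (ZMod p)) → ℝ) : Prop :=
  (∀ x ∉ X, ∃ M : ℤ, ∀ x', Agree p M x x' → x' ∉ X) ∧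
    ∀ x ∈ X, ∀ ε > 0, ∃ M : ℤ, ∀ x' ∈ X, Agree p M x x' → |f x' - f x| < ε

/-- the lexicographic order of `F_p((t))`: the first coefficients which differ are compared, as
numbers `0, ..., p - 1` -/
def Lex (x y : Fin 1 → LaurentSeries (ZMod p)) : Prop :=
  x = y ∨ ∃ k : ℤ, (∀ j < k, (x 0).coeff j = (y 0).coeff j) ∧
    ((x 0).coeff k).val < ((y 0).coeff k).val

variable {p}

theorem thinPreorder {n : ℕ}
    {R : (Fin n → LaurentSeries (ZMod p)) → (Fin n → LaurentSeries (ZMod p)) → Prop}
    (h1 : ClosedPreorder p R) (h2 : Thin p R) : Pool.Agent.U775.OR.ThinPreorder R where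
  dom := h1.1
  trans := h1.2.1
  closed := h1.2.2
  thin := h2

theorem ordersBounded (P : Set (LaurentSeries (ZMod p))) (hT : LFTame p P) :
    OrdersBounded p P := by
  intro φ n
  obtain ⟨N, hN⟩ := Pool.Agent.U775.OR.ordersBounded P hT φ n
  exact ⟨N, fun v h1 h2 => hN v (thinPreorder h1 h2)⟩

/-- the preorder of a continuous function -/
theorem closedPreorder_of_fun {n : ℕ} (X : Set (Fin n → LaurentSeries (ZMod p)))
    (f : (Fin n → LaurentSeries (ZMod p)) → ℝ) (h : ContOn p X f) :
    ClosedPreorder p fun x y => x ∈ X ∧ y ∈ X ∧ f x ≤ f y := by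
  refine ⟨fun x y hxy => ⟨⟨hxy.1, hxy.1, le_refl _⟩, hxy.2.1, hxy.2.1, le_refl _⟩,
    fun x y z h1 h2 => ⟨h1.1, h2.2.1, h1.2.2.trans h2.2.2⟩, fun x y hxy => ?_⟩
  by_cases hx : x ∈ X
  · by_cases hy : y ∈ X
    · have hlt : f y < f x := by
        by_contra hn
        exact hxy ⟨hx, hy, not_lt.1 hn⟩
      obtain ⟨M1, hM1⟩ := h.2 x hx ((f x - f y) / 2) (by linarith)
      obtain ⟨M2, hM2⟩ := h.2 y hy ((f x - f y) / 2) (by linarith)
      refine ⟨max M1 M2, fun x' y' h1 h2 h3 => ?_⟩
      have e1 := hM1 x' h3.1 fun i k hk => h1 i k (lt_of_lt_of_le hk (le_max_left _ _))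
      have e2 := hM2 y' h3.2.1 fun i k hk => h2 i k (lt_of_lt_of_le hk (le_max_right _ _))
      have e3 := abs_lt.1 e1
      have e4 := abs_lt.1 e2
      linarith [h3.2.2]
    · obtain ⟨M, hM⟩ := h.1 y hy
      exact ⟨M, fun x' y' _ h2 h3 => hM y' h2 h3.2.1⟩
  · obtain ⟨M, hM⟩ := h.1 x hx
    exact ⟨M, fun x' y' h1 _ h3 => hM x' h1 h3.1⟩

theorem thin_of_fun {n : ℕ} (X : Set (Fin n → LaurentSeries (ZMod p)))
    (f : (Fin n → LaurentSeries (ZMod p)) → ℝ) (h : ∀ r : ℝ, {x | x ∈ X ∧ f x = r}.Finite) :
    Thin p fun x y => x ∈ X ∧ y ∈ X ∧ f x ≤ f y := by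
  intro A h1 h2
  rcases A.eq_empty_or_nonempty with rfl | ⟨a, ha⟩
  · exact Set.finite_empty
  · refine (h (f a)).subset fun x hx => ⟨(h1 x hx).1, ?_⟩
    rcases le_total (f x) (f a) with h3 | h3
    · exact le_antisymm h3 (h2 x hx a ha ⟨(h1 x hx).1, (h1 a ha).1, h3⟩).2.2
    · exact le_antisymm (h2 a ha x hx ⟨(h1 a ha).1, (h1 x hx).1, h3⟩).2.2 h3

variable (p)

theorem result :
    -- the field with any unary predicate (for `P = ValRing p`, the valued field): true arithmetic
    -- is reducible to the theory, or the thin closed definable preorders are finite and bounded;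
    -- the latter holds if the theory is recursively enumerable
    (∀ P : Set (LaurentSeries (ZMod p)), (OrdersBounded p P ∨ Arith p P) ∧
      (REPred (InTh p P) → OrdersBounded p P)) ∧
    -- the expansions by thin closed preorders on infinite sets
    (∀ (n : ℕ)
      (R : (Fin n → LaurentSeries (ZMod p)) → (Fin n → LaurentSeries (ZMod p)) → Prop),
      ClosedPreorder p R → Thin p R → {x | R x x}.Infinite →
        Arith p (Codes p R) ∧ ¬ REPred (InTh p (Codes p R))) ∧
    -- partial orders without infinite antichains are thin, and so are linear orders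
    (∀ (n : ℕ)
      (R : (Fin n → LaurentSeries (ZMod p)) → (Fin n → LaurentSeries (ZMod p)) → Prop),
      (∀ x y, R x y → R y x → x = y) →
        ((∀ A : Set (Fin n → LaurentSeries (ZMod p)), (∀ x ∈ A, R x x) →
          (∀ x ∈ A, ∀ y ∈ A, R x y → x = y) → A.Finite) → Thin p R) ∧
        ((∀ x y, R x x → R y y → R x y ∨ R y x) → Thin p R)) ∧
    -- the relation `f x ≤ f y` for continuous functions with finite fibres to the real numbers
    (∀ (n : ℕ) (X : Set (Fin n → LaurentSeries (ZMod p)))
      (f : (Fin n → LaurentSeries (ZMod p)) → ℝ), ContOn p X f →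
      (∀ r : ℝ, {x | x ∈ X ∧ f x = r}.Finite) →
        ClosedPreorder p (fun x y => x ∈ X ∧ y ∈ X ∧ f x ≤ f y) ∧
        Thin p (fun x y => x ∈ X ∧ y ∈ X ∧ f x ≤ f y)) ∧
    -- the lexicographic order
    ClosedPreorder p (Lex p) ∧ Thin p (Lex p) ∧
      Arith p (Codes p (Lex p)) ∧ ¬ REPred (InTh p (Codes p (Lex p))) := by
  have hB : ∀ (n : ℕ)
      (R : (Fin n → LaurentSeries (ZMod p)) → (Fin n → LaurentSeries (ZMod p)) → Prop),
      ClosedPreorder p R → Thin p R → {x | R x x}.Infinite →
        Arith p (Codes p R) ∧ ¬ REPred (InTh p (Codes p R)) := by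
    intro n R h1 h2 hinf
    have h3 : ¬ LFTame p (Codes p R) := fun hT =>
      Pool.Agent.U775.OR.not_ordersBounded R (thinPreorder h1 h2) hinf
        (Pool.Agent.U775.OR.ordersBounded _ hT)
    exact ⟨(dichotomy p _).resolve_left fun ht => h3 (lftame_of_tame _ ht),
      fun hr => h3 (lftame_of_tame _ (tame p _ hr))⟩
  have hL := (Pool.Agent.U775.OR.lex_closedOrder (p := p)).toThin
  have hL1 : ClosedPreorder p (Lex p) := ⟨hL.dom, hL.trans, hL.closed⟩
  have hL2 : Thin p (Lex p) := hL.thin
  refine ⟨fun P => ⟨(dichotomy p P).imp_left fun h => ordersBounded P (lftame_of_tame P h),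
      fun h => ordersBounded P (lftame_of_tame P (tame p P h))⟩, hB, ?_,
      fun n X f h1 h2 => ⟨closedPreorder_of_fun X f h1, thin_of_fun X f h2⟩, hL1, hL2,
      hB 1 _ hL1 hL2 Pool.Agent.U775.OR.lex_infinite⟩
  intro n R hanti
  refine ⟨fun h A h1 h2 => h A h1 fun x hx y hy hxy => hanti x y hxy (h2 x hx y hy hxy),
    fun htot A h1 h2 => ?_⟩
  refine Set.Subsingleton.finite fun x hx y hy => ?_
  rcases htot x y (h1 x hx) (h1 y hy) with h3 | h3
  · exact hanti _ _ h3 (h2 x hx y hy h3)
  · exact hanti _ _ (h2 y hy x hx h3) h3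

end Pool.Agent.Results.MP_909098_lc.ClosedOrders
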